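import Mathlib
import Pool.Agent.H25.QSum

namespace Pool.Agent.Results.MP_97e2c3_nt.FourN

open Finset

/-- `f n r = ∑ k ≤ n, (n choose k) ^ r`. -/
def f (n r : ℕ) : ℤ := ∑ k ∈ range (n + 1), (n.choose k : ℤ) ^ r

lemma f_even (k r : ℕ) : 2 ∣ f (k + 1) (r + 1) := by
  have h1 : (2 : ℤ) ∣ f (k + 1) (r + 1) - ∑ j ∈ range (k + 1 + 1), ((k + 1).choose j : ℤ) := by
    rw [f, ← sum_sub_distrib]
    refine dvd_sum fun j _ => even_iff_two_dvd.1 ?_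
    rw [Int.even_sub, Int.even_pow]
    simp
  rw [← Nat.cast_sum, Nat.sum_range_choose] at h1
  push_cast at h1
  simpa using dvd_add h1 (dvd_pow_self 2 k.succ_ne_zero)

theorem result (n r : ℕ) (hn : 1 < n) :
    4 * (n : ℤ) ∣ ∑ k ∈ range n, (-1) ^ k * (3 * k + 2) * f k (2 * r + 1) := by
  have e : ∀ n, ∑ k ∈ range n, (-1) ^ ((2 * r + 1) * k) * (3 * (k : ℤ) + 2) * f k (2 * r + 1) =
      ∑ k ∈ range n, (-1) ^ k * (3 * (k : ℤ) + 2) * f k (2 * r + 1) := fun n =>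
    sum_congr rfl fun k _ => by rw [pow_mul, pow_succ, pow_mul]; simp
  have h4 := fun m => (H25.QSum.four_n m r).trans (dvd_of_eq (e _))
  obtain ⟨m, rfl | rfl⟩ := Nat.even_or_odd' n
  · rw [mul_comm 2 m]; exact h4 m
  refine IsCoprime.mul_dvd ?_ ?_
    ((Dvd.intro_left _ rfl).trans ((H25.QSum.two_n _ _ (by omega)).trans (dvd_of_eq (e _))))
  · exact ⟨m * m, 1 - 2 * m, by push_cast; ring⟩
  · rw [sum_range_succ, mul_comm 2 m]
    refine dvd_add ((Dvd.intro _ rfl).trans (h4 m)) ?_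
    obtain ⟨k, hk⟩ : ∃ k, m * 2 = k + 1 := ⟨m * 2 - 1, by omega⟩
    have h1 : 2 ∣ f (m * 2) (2 * r + 1) := by rw [hk]; exact f_even k _
    have h2 : 2 ∣ (3 * ((m * 2 : ℕ) : ℤ) + 2) := ⟨3 * m + 1, by push_cast; ring⟩
    exact mul_dvd_mul (h2.mul_left _) h1

end Pool.Agent.Results.MP_97e2c3_nt.FourN
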